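import Pool.Agent.H7.HD.Targets9
import Pool.Agent.H7.HD.All8

/-!
# (AC) all cofinalities
-/

open Ordinal Cardinal Order Set
open scoped ZFSet

universe u

namespace Pool.Agent.H18.HD9.AC

open _root_.HD

/-- `δ` is an element of exactly one of the sets `e z` and `e z'` -/
def Df (e : Ordinal.{u} → ZFSet.{u}) (z z' δ : Ordinal.{u}) : Prop :=
  ¬ (δ.toZFSet ∈ e z ↔ δ.toZFSet ∈ e z')

theorem exists_df {K : Cardinal.{u}} {e : Ordinal.{u} → ZFSet.{u}}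
    (he : ∀ ζ, e ζ ⊆ K.ord.toZFSet) {z z' : Ordinal.{u}} (h : e z ≠ e z') :
    ∃ δ < K.ord, Df e z z' δ := by
  by_contra hcon
  push Not at hcon
  apply h
  ext x
  constructor
  · intro hx
    obtain ⟨δ, hδ, rfl⟩ := mem_toZFSet_iff.1 (he z hx)
    have := hcon δ hδ
    unfold Df at this
    rw [not_not] at this
    exact this.1 hx
  · intro hx
    obtain ⟨δ, hδ, rfl⟩ := mem_toZFSet_iff.1 (he z' hx)
    have := hcon δ hδ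
    unfold Df at this
    rw [not_not] at this
    exact this.2 hx

theorem hod_inter {x : ZFSet.{u}} (hx : HOD x) (a : Ordinal.{u}) : HOD (x ∩ a.toZFSet) := by
  refine HOD.of_sub (a := a) ?_ fun z hz => (ZFSet.mem_inter.1 hz).2
  refine OD.of_mem (P := fun v => v 0 ∈ x ∧ v 0 ∈ a.toZFSet) ?_ fun v => ZFSet.mem_inter.symm
  exact (DZ.od (R := fun b v => v 0 ∈ b) hx.od (DZ.mem 1 0)).and
    (DZ.od (R := fun b v => v 0 ∈ b) (OD.ordinal a) (DZ.mem 1 0))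

theorem ac (hOC : T_OC.{u}) (hEK : T_EK.{u}) : T_AC.{u} := by
  classical
  intro D G K hB hK hGK
  have hGK' : G < K := (lt_succ G).trans hGK
  obtain ⟨e, he, he2⟩ := hEK D G K hB hK hGK'
  have hK0 : ℵ₀ < K := (hB.dunc.trans_le hB.dg).trans hGK'
  have hcofK : K.ord.cof = K := hK.cof_ord
  have hlimK : IsSuccLimit K.ord := Cardinal.isSuccLimit_ord hK.aleph0_le
  -- the points of cofinality omega
  have h1 : ¬ Pos (ℵ₀ : Cardinal.{u}).ord K.ord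
      {a | ∃ y, HOD y ∧ y ⊆ a.toZFSet ∧ ∀ z < a, y ≠ e z ∩ a.toZFSet} := by
    intro hT
    have hch : ∀ a : Ordinal.{u}, ∃ y : ZFSet.{u},
        a ∈ {a : Ordinal.{u} | ∃ y, HOD y ∧ y ⊆ a.toZFSet ∧ ∀ z < a, y ≠ e z ∩ a.toZFSet} →
          HOD y ∧ y ⊆ a.toZFSet ∧ ∀ z < a, y ≠ e z ∩ a.toZFSet := by
      intro a
      by_cases ha : a ∈ {a : Ordinal.{u} | ∃ y, HOD y ∧ y ⊆ a.toZFSet ∧
          ∀ z < a, y ≠ e z ∩ a.toZFSet}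
      · obtain ⟨y, hy⟩ := ha
        exact ⟨y, fun _ => hy⟩
      · exact ⟨∅, fun h => absurd h ha⟩
    choose y hy using hch
    obtain ⟨A, hA, hAK, hpos⟩ := hOC D G K hB hK hGK _ y hT
      (fun a ha _ => ⟨(hy a ha).1, (hy a ha).2.1⟩)
    obtain ⟨ζ, hζ, rfl⟩ := he2 A hA hAK
    refine All.vb (ℵ₀ : Cardinal.{u}).ord K.ord (succ ζ) hlimK (hlimK.succ_lt hζ)
      (hpos.mono fun b _ hb _ => ?_)
    obtain ⟨hb1, hb2⟩ := hb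
    rw [mem_Iio, lt_succ_iff]
    by_contra hcon
    exact (hy b hb1).2.2 ζ (not_le.1 hcon) hb2
  unfold Pos at h1
  push Not at h1
  obtain ⟨C₀, hC₀, hno⟩ := h1
  have hno' : ∀ b < K.ord, b ∈ C₀ → Cf (ℵ₀ : Cardinal.{u}).ord b → ∀ y, HOD y → y ⊆ b.toZFSet →
      ∃ z < b, y = e z ∩ b.toZFSet := by
    intro b hb hbC hbω y hy hyb
    by_contra hcon
    push Not at hcon
    exact hno b hb hbC ⟨y, hy, hyb, hcon⟩ hbω
  -- bounds of the least differences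
  have h2 : ∀ z < K.ord, ∃ s < K.ord, ∀ z₁ < z, ∀ z₂ < z, e z₁ ≠ e z₂ →
      ∃ δ ≤ s, Df e z₁ z₂ δ := by
    intro z hz
    have hg : ∀ z₁ z₂ : Ordinal.{u}, ∃ δ < K.ord, e z₁ ≠ e z₂ → Df e z₁ z₂ δ := by
      intro z₁ z₂
      by_cases h : e z₁ = e z₂
      · exact ⟨0, hlimK.bot_lt, fun h' => absurd h h'⟩
      · obtain ⟨δ, hδ, h'⟩ := exists_df (fun ζ => (he ζ).2) h
        exact ⟨δ, hδ, fun _ => h'⟩
    choose g hg1 hg2 using hg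
    have hcard : z.card < K.ord.cof := by
      rw [hcofK]
      exact Cardinal.lt_ord.1 hz
    have hb : ∀ z₁ : Ordinal.{u}, ∃ s < K.ord, ∀ z₂ < z, g z₁ z₂ ≤ s := fun z₁ =>
      Pool.Agent.H3.HD.exists_bound hcard (g z₁) fun i _ => hg1 z₁ i
    choose b hb1 hb2 using hb
    obtain ⟨s, hs, hs2⟩ := Pool.Agent.H3.HD.exists_bound hcard b fun i _ => hb1 i
    exact ⟨s, hs, fun z₁ hz₁ z₂ hz₂ hne =>
      ⟨g z₁ z₂, (hb2 z₁ z₂ hz₂).trans (hs2 z₁ hz₁), hg2 z₁ z₂ hne⟩⟩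
  have h3 : ∀ z < K.ord, ∃ s < K.ord, (∀ z₁ < z, ∀ z₂ < z, e z₁ ≠ e z₂ →
      ∃ δ ≤ s, Df e z₁ z₂ δ) ∧ ∃ c ≤ s, z < c ∧ c ∈ C₀ := by
    intro z hz
    obtain ⟨s, hs, hs2⟩ := h2 z hz
    obtain ⟨c, hc, hzc, hcC⟩ := hC₀.unb z hz
    refine ⟨max s c, max_lt hs hc, fun z₁ hz₁ z₂ hz₂ hne => ?_, c, le_max_right _ _, hzc, hcC⟩
    obtain ⟨δ, hδ, h⟩ := hs2 z₁ hz₁ z₂ hz₂ hne
    exact ⟨δ, hδ.trans (le_max_left _ _), h⟩
  choose! s hsK hs1 hs2 using h3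
  refine ⟨_, e, All.ve K hK hK0 s hsK, he, he2, ?_⟩
  rintro ξ ⟨hξ0, hξs⟩ hξK x hx hxξ
  have hu : ∀ y < ξ, ∃ z < ξ, y < z ∧ z ∈ C₀ := by
    intro y hy
    obtain ⟨c, hc, hyc, hcC⟩ := hs2 y (hy.trans hξK)
    exact ⟨c, hc.trans_lt (hξs y hy), hyc, hcC⟩
  have hlim : IsSuccLimit ξ := by
    rw [Order.isSuccLimit_iff, isMin_iff_eq_bot]
    refine ⟨?_, ?_⟩
    · intro h
      rw [h] at hξ0
      exact absurd hξ0 (by simp)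
    · intro a ha
      obtain ⟨z, hz, haz, -⟩ := hu a ha.lt
      exact ha.2 haz hz
  have hξC : ξ ∈ C₀ := hC₀.cls ξ hξK hξ0 hu
  have hcof : ℵ₀ ≤ ξ.cof := Ordinal.aleph0_le_cof_iff.2 (Ordinal.one_lt_cof_iff.2 hlim)
  rcases hcof.lt_or_eq with hcof | hcof
  swap
  · exact hno' ξ hξK hξC (by unfold Cf; rw [← hcof]) x hx hxξ
  -- uncountable cofinality
  have hCξ : Clb ξ C₀ := ⟨hu, fun y hy hy0 h => hC₀.cls y (hy.trans hξK) hy0 h⟩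
  have hX : Pos (ℵ₀ : Cardinal.{u}).ord ξ {ν | ∃ z < ν, x ∩ ν.toZFSet = e z ∩ ν.toZFSet} := by
    have hn : ¬ Pos (ℵ₀ : Cardinal.{u}).ord ξ {ν | ν ∉ C₀} := by
      intro h
      obtain ⟨b, -, hb1, hb2, -⟩ := h C₀ hCξ
      exact hb2 hb1
    refine (pos_diff All.va hcof (All.vc ℵ₀ ξ Cardinal.isRegular_aleph0 hcof) hn).mono
      fun b hb hb1 hbω => ?_
    have hbC : b ∈ C₀ := by
      by_contra h
      exact hb1.2 h
    exact hno' b (hb.trans hξK) hbC hbω _ (hod_inter hx b)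
      fun z hz => (ZFSet.mem_inter.1 hz).2
  have hch : ∀ ν : Ordinal.{u}, ∃ z : Ordinal.{u},
      ν ∈ {ν : Ordinal.{u} | ∃ z < ν, x ∩ ν.toZFSet = e z ∩ ν.toZFSet} →
        z < ν ∧ x ∩ ν.toZFSet = e z ∩ ν.toZFSet := by
    intro ν
    by_cases hν : ν ∈ {ν : Ordinal.{u} | ∃ z < ν, x ∩ ν.toZFSet = e z ∩ ν.toZFSet}
    · obtain ⟨z, hz⟩ := hν
      exact ⟨z, fun _ => hz⟩
    · exact ⟨0, fun h => absurd h hν⟩
  choose h hh using hch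
  obtain ⟨a, ha, hpos⟩ := All.uv (ℵ₀ : Cardinal.{u}).ord ξ hcof _ h hX
    (fun b hb _ _ => (hh b hb).1)
  have hbig : ∀ β < ξ, ∃ ν < ξ, β ≤ ν ∧ h ν < a ∧ x ∩ ν.toZFSet = e (h ν) ∩ ν.toZFSet := by
    intro β hβ
    obtain ⟨ν, hν, -, ⟨⟨hν1, hν2⟩, hν3⟩, -⟩ :=
      pos_diff All.va hcof hpos (All.vb (ℵ₀ : Cardinal.{u}).ord ξ β hlim hβ) univ
        ⟨fun y hy => ⟨succ y, hlim.succ_lt hy, lt_succ y, mem_univ _⟩, fun _ _ _ _ => mem_univ _⟩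
    exact ⟨ν, hν, not_lt.1 hν3, hν2, (hh ν hν1).2⟩
  have hag : ∀ {y y' : ZFSet.{u}} {ν δ : Ordinal.{u}}, y ∩ ν.toZFSet = y' ∩ ν.toZFSet → δ < ν →
      (δ.toZFSet ∈ y ↔ δ.toZFSet ∈ y') := by
    intro y y' ν δ h hδ
    have h1 : δ.toZFSet ∈ y ∩ ν.toZFSet ↔ δ.toZFSet ∈ y' ∩ ν.toZFSet := by rw [h]
    rw [ZFSet.mem_inter, ZFSet.mem_inter] at h1
    have h2 : δ.toZFSet ∈ ν.toZFSet := toZFSet_mem_toZFSet_iff.2 hδ
    constructor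
    · intro h3
      exact (h1.1 ⟨h3, h2⟩).1
    · intro h3
      exact (h1.2 ⟨h3, h2⟩).1
  have hsa : s a < ξ := hξs a ha
  obtain ⟨ν₀, hν₀, hsν₀, hz₀, hx₀⟩ := hbig (succ (s a)) (hlim.succ_lt hsa)
  refine ⟨h ν₀, hz₀.trans ha, ?_⟩
  have key : ∀ δ < ξ, (δ.toZFSet ∈ x ↔ δ.toZFSet ∈ e (h ν₀)) := by
    intro δ hδ
    obtain ⟨ν, hν, hβν, hz, hxν⟩ := hbig (max (succ δ) (succ (s a)))
      (max_lt (hlim.succ_lt hδ) (hlim.succ_lt hsa))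
    have hδν : δ < ν := (lt_succ δ).trans_le ((le_max_left _ _).trans hβν)
    have hsν : s a < ν := (lt_succ _).trans_le ((le_max_right _ _).trans hβν)
    have heq : e (h ν) = e (h ν₀) := by
      by_contra hne
      obtain ⟨δ', hδ', hd⟩ := hs1 a (ha.trans hξK) (h ν) hz (h ν₀) hz₀ hne
      apply hd
      rw [← hag hxν (hδ'.trans_lt hsν), hag hx₀ (hδ'.trans_lt ((lt_succ _).trans_le hsν₀))]
    rw [← heq]
    exact hag hxν hδν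
  ext z
  rw [ZFSet.mem_inter]
  constructor
  · intro hz
    obtain ⟨δ, hδ, rfl⟩ := mem_toZFSet_iff.1 (hxξ hz)
    exact ⟨(key δ hδ).1 hz, toZFSet_mem_toZFSet_iff.2 hδ⟩
  · rintro ⟨hz, hzξ⟩
    obtain ⟨δ, hδ, rfl⟩ := mem_toZFSet_iff.1 hzξ
    exact (key δ hδ).2 hz

end Pool.Agent.H18.HD9.AC
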