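import Pool.Agent.H7.HD.Targets9
import Pool.Agent.H7.HD.All8

/-!
# (CH) definable sequences of subsets cohere
-/

open Ordinal Cardinal Order Set
open scoped ZFSet

universe u

namespace Pool.Agent.H18.HD9.CH

open _root_.HD

theorem ch (hIX : T_IX.{u}) : T_CH.{u} := by
  classical
  intro en K c k hen hK hK0 hat hk
  have hcof : ℵ₀ < K.ord.cof := by
    rw [hK.cof_ord]
    exact hK0
  have hPX := (hIX en hen).1
  obtain ⟨hE, -, hcode, -⟩ := All.ea en hen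
  -- the relation `z` is an element of the set given by `k a`
  have hP : DO fun w => PX en (w 0) (k (w 0)) (w 1) := by
    refine (DO.ex (R := fun b w => b = k (w 0) ∧ PX en (w 0) b (w 1)) ?_).congr fun w => ?_
    · exact (hk.s2 (X := fun a b => b = k a) 1 0).and
        (DO.s3 (X := fun a b z => PX en a b z) hPX 1 0 2)
    · constructor
      · intro h
        exact ⟨_, rfl, h⟩
      · rintro ⟨b, rfl, h⟩
        exact h
  obtain ⟨A₀, hA₀⟩ : ∃ A₀ : Set Ordinal.{u}, A₀ = {z | ¬ Pos (ℵ₀ : Cardinal.{u}).ord K.ord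
      {a | a ∈ E en c ∧ ¬ PX en a (k a) z}} := ⟨_, rfl⟩
  have hA₀d : DS A₀ := by
    rw [hA₀]
    refine DO.not ?_
    refine Pool.Agent.H43.HD.UA.posDO All.da (ℵ₀ : Cardinal.{u}).ord K.ord
      (X := fun a w => a ∈ E en c ∧ ¬ PX en a (k a) (w 0)) ?_
    refine DO.and ?_ (hP.s2 (X := fun a z => PX en a (k a) z) 0 1).not
    exact DO.sub c (R := fun c w => w 0 ∈ E en c) (hE.s2 (X := fun a c => a ∈ E en c) 1 0)
  refine ⟨os K.ord A₀, hod_os hA₀d _, ?_, ?_⟩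
  · intro z hz
    obtain ⟨a, ha, -, rfl⟩ := mem_os.1 hz
    exact toZFSet_mem_toZFSet_iff.2 ha
  intro hpos
  have hch : ∀ a : Ordinal.{u}, ∃ z : Ordinal.{u},
      (¬ ∀ ζ < a, (PX en a (k a) ζ ↔ ζ.toZFSet ∈ os K.ord A₀)) →
        z < a ∧ ¬ (PX en a (k a) z ↔ z.toZFSet ∈ os K.ord A₀) := by
    intro a
    by_cases h : ∀ ζ < a, (PX en a (k a) ζ ↔ ζ.toZFSet ∈ os K.ord A₀)
    · exact ⟨0, fun h' => absurd h h'⟩
    · push Not at h
      obtain ⟨z, hz, h⟩ := h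
      refine ⟨z, fun _ => ⟨hz, ?_⟩⟩
      rw [not_iff]
      tauto
  choose f hf using hch
  obtain ⟨z, hz, hpz⟩ := All.vd (ℵ₀ : Cardinal.{u}).ord K hK hK0 _ f hpos
    (fun b hb _ _ => (hf b hb.2).1)
  by_cases hzA : z ∈ A₀
  · have h1 : ¬ Pos (ℵ₀ : Cardinal.{u}).ord K.ord {a | a ∈ E en c ∧ ¬ PX en a (k a) z} := by
      rw [hA₀] at hzA
      exact hzA
    refine h1 (hpz.mono fun b _ hb _ => ?_)
    obtain ⟨⟨hb1, hb2⟩, hb3⟩ := hb
    refine ⟨hb1, fun h => ?_⟩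
    have h2 := (hf b hb2).2
    rw [hb3] at h2
    exact h2 ⟨fun _ => ord_mem_os.2 ⟨hz, hzA⟩, fun _ => h⟩
  · have h1 : Pos (ℵ₀ : Cardinal.{u}).ord K.ord {a | a ∈ E en c ∧ ¬ PX en a (k a) z} := by
      rw [hA₀] at hzA
      exact not_not.1 hzA
    have hX : DS {a | PX en a (k a) z} :=
      DO.sub z (R := fun z w => PX en (w 0) (k (w 0)) z)
        (hP.s2 (X := fun a z => PX en a (k a) z) 1 0)
    obtain ⟨x, hx⟩ := hcode _ hX K.ord
    refine hat.ult x ⟨hpz.mono fun b hbK hb _ => ?_, h1.mono fun b _ hb _ => ?_⟩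
    · obtain ⟨⟨hb1, hb2⟩, hb3⟩ := hb
      refine ⟨hb1, ?_⟩
      rw [hx]
      refine ⟨?_, hbK⟩
      have h2 := (hf b hb2).2
      rw [hb3] at h2
      by_contra h
      exact h2 ⟨fun h' => absurd h' h, fun h' => absurd (ord_mem_os.1 h').2 hzA⟩
    · refine ⟨hb.1, fun h => ?_⟩
      rw [hx] at h
      exact hb.2 h.1

end Pool.Agent.H18.HD9.CH
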